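import Pool.Agent.W227.FC.Rep

/-!
# Growth conditions
-/

set_option autoImplicit false

namespace Pool.Agent.W227.FC

open Finset Classical Filter Topology

/-- If the `n`-th element of the infinite set `A` is at most `C n ^ 2`, then `A` has at least
`N ^ α` elements below `N` for arbitrarily large `N`, for every `α < 1 / 2`. -/
lemma freq_of_elt {A : Set ℕ} (hA : A.Infinite) {C : ℝ}
    (hC : ∀ n : ℕ, 1 ≤ n → ((Nat.nth (· ∈ A) (n - 1) : ℕ) : ℝ) ≤ C * (n : ℝ) ^ 2) {α : ℝ}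
    (hα : α < 1 / 2) :
    ∃ᶠ N : ℕ in atTop, (N : ℝ) ^ α ≤ (A ∩ Set.Iio N).ncard := by
  set c := ⌈C⌉₊ + 1 with hc
  have hc1 : 1 ≤ c := by omega
  have hCc : C ≤ c := by
    rw [hc]
    push_cast
    have := Nat.le_ceil C
    linarith
  have hcpos : (0 : ℝ) < c + 1 := by positivity
  have hev := pow_below (c := 1 / Real.sqrt (c + 1)) (α := α) (β := 1 / 2) (by positivity) hα
  obtain ⟨N1, hN1⟩ := eventually_atTop.1 hev
  rw [frequently_atTop]
  intro N0
  set n := max (max N0 N1) 1 with hn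
  have hn1 : 1 ≤ n := le_max_right _ _
  have hnN0 : N0 ≤ n := le_trans (le_max_left _ _) (le_max_left _ _)
  have hnN1 : N1 ≤ n := le_trans (le_max_right _ _) (le_max_left _ _)
  set N := c * n ^ 2 + 1 with hN
  have hnN : n ≤ N := by
    rw [hN]
    nlinarith [Nat.mul_le_mul hc1 (Nat.mul_le_mul hn1 (le_refl n))]
  refine ⟨N, by omega, ?_⟩
  have hcnt : n ≤ cnt A N := by
    have h1 : cnt A N = Nat.count (· ∈ A) N := by
      rw [Nat.count_eq_card_filter_range]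
      unfold cnt
      congr
    have h2 : Nat.nth (· ∈ A) (n - 1) < N := by
      have h3 := hC n hn1
      have h4 : ((Nat.nth (· ∈ A) (n - 1) : ℕ) : ℝ) ≤ ((c * n ^ 2 : ℕ) : ℝ) := by
        refine le_trans h3 ?_
        push_cast
        exact mul_le_mul_of_nonneg_right hCc (by positivity)
      have h5 : Nat.nth (· ∈ A) (n - 1) ≤ c * n ^ 2 := by exact_mod_cast h4
      omega
    have h3 : Nat.count (· ∈ A) (Nat.nth (· ∈ A) (n - 1) + 1) ≤ Nat.count (· ∈ A) N :=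
      Nat.count_monotone _ (by omega)
    rw [Nat.count_nth_succ_of_infinite (p := (· ∈ A)) hA] at h3
    rw [h1]
    omega
  rw [cnt_eq]
  have h1 := hN1 N (le_trans hnN1 hnN)
  have h2 : (N : ℝ) ^ (1 / 2 : ℝ) ≤ Real.sqrt (c + 1) * n := by
    rw [← Real.sqrt_eq_rpow]
    rw [show Real.sqrt ((c : ℝ) + 1) * n = Real.sqrt (((c : ℝ) + 1) * (n : ℝ) ^ 2) by
      rw [Real.sqrt_mul hcpos.le, Real.sqrt_sq (by positivity)]]
    apply Real.sqrt_le_sqrt
    rw [hN]
    push_cast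
    have : (1 : ℝ) ≤ (n : ℝ) ^ 2 := one_le_pow₀ (by exact_mod_cast hn1)
    nlinarith
  have h3 : (0 : ℝ) < Real.sqrt (c + 1) := Real.sqrt_pos.2 hcpos
  calc (N : ℝ) ^ α ≤ 1 / Real.sqrt (c + 1) * (N : ℝ) ^ (1 / 2 : ℝ) := h1
    _ ≤ 1 / Real.sqrt (c + 1) * (Real.sqrt (c + 1) * n) := by
        apply mul_le_mul_of_nonneg_left h2 (by positivity)
    _ = n := by
        field_simp
    _ ≤ cnt A N := by exact_mod_cast hcnt

/-- An asymptotic basis of order `h` has at least `N ^ α` elements below `N` for all large `N`,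
for every `α < 1 / h`. -/
lemma freq_of_basis {A : Set ℕ} {h : ℕ} (hh : 1 ≤ h)
    (hb : ∀ᶠ n : ℕ in atTop, ∃ v : Fin h → ℕ, (∀ i, v i ∈ A) ∧ ∑ i, v i = n) {α : ℝ}
    (hα : α < 1 / (h : ℝ)) :
    ∃ᶠ N : ℕ in atTop, (N : ℝ) ^ α ≤ (A ∩ Set.Iio N).ncard := by
  have h1 := count_of_basis hh hb
  have h2 := pow_below (c := 1 / 2) (α := α) (β := 1 / (h : ℝ)) (by norm_num) hα
  apply Eventually.frequently
  filter_upwards [h1, h2] with N h3 h4
  exact le_trans h4 h3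

/-- a multiset of `h` elements of `A` gives an `h`-tuple -/
lemma tuple_of_multi {A : Set ℕ} {h n : ℕ} {M : Multiset ℕ} (h1 : M.card = h)
    (h2 : ∀ x ∈ M, x ∈ A) (h3 : M.sum = n) :
    ∃ v : Fin h → ℕ, (∀ i, v i ∈ A) ∧ ∑ i, v i = n := by
  obtain ⟨l, rfl⟩ := Quot.exists_rep M
  change (l : Multiset ℕ).card = h at h1
  rw [Multiset.coe_card] at h1
  subst h1
  refine ⟨fun i => l.get i, fun i => h2 _ ?_, ?_⟩
  · change l.get i ∈ (l : Multiset ℕ)
    rw [Multiset.mem_coe]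
    exact List.get_mem l i
  · rw [← h3]
    change _ = (l : Multiset ℕ).sum
    rw [Multiset.sum_coe]
    conv_rhs => rw [← List.ofFn_get l]
    rw [List.sum_ofFn]

/-- exponents: `γ ^ m (1 - α) < 1` for some `γ > 1` if `α > 0` -/
lemma exists_gamma {α : ℝ} (hα : 0 < α) (m : ℕ) :
    ∃ ε : ℝ, 0 < ε ∧ (1 + ε) ^ m * (1 - α) < 1 := by
  have h1 : Tendsto (fun ε : ℝ => (1 + ε) ^ m * (1 - α)) (𝓝[>] 0) (𝓝 ((1 + 0) ^ m * (1 - α))) := by
    apply Tendsto.mono_left _ nhdsWithin_le_nhds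
    have : Continuous (fun ε : ℝ => (1 + ε) ^ m * (1 - α)) := by fun_prop
    exact this.tendsto 0
  have h2 : (1 + 0 : ℝ) ^ m * (1 - α) < 1 := by
    rw [add_zero, one_pow, one_mul]
    linarith
  have h3 := h1.eventually (gt_mem_nhds h2)
  obtain ⟨ε, h4, h5⟩ := (h3.and self_mem_nhdsWithin).exists
  exact ⟨ε, h5, h4⟩

end Pool.Agent.W227.FC
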