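import Pool.Agent.W227.FC.Step

/-!
# Factor complexity and cubes: iteration
-/

set_option autoImplicit false

namespace Pool.Agent.W227.FC

open Finset Classical Filter Topology Asymptotics

/-- number of elements of `A` below `X` -/
noncomputable def cnt (A : Set ℕ) (X : ℕ) : ℕ := ((range X).filter (fun s => s ∈ A)).card

lemma base (A : Set ℕ) (X : ℕ) : St A X 1 0 (cnt A X) := by
  have key : ∀ s, fac A 1 s = {0} ↔ s ∈ A := by
    intro s
    constructor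
    · intro h
      have : (0 : ℕ) ∈ fac A 1 s := by rw [h]; simp
      rw [mem_fac] at this
      simpa using this.2
    · intro h
      ext i
      rw [mem_fac, Finset.mem_singleton]
      constructor
      · rintro ⟨h1, -⟩
        omega
      · rintro rfl
        exact ⟨by norm_num, by simpa using h⟩
  refine ⟨1, 1, {0}, le_refl _, by norm_num, ?_, ?_, 0, [], rfl, by simp, ?_⟩
  · unfold cnt
    apply le_of_eq
    congr 1
    ext s
    rw [Finset.mem_filter, Finset.mem_filter, key]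
  · intro s s' _ _ h
    omega
  · intro s h
    rw [key] at h
    simpa [cubeSet] using h

lemma log_small {ε : ℝ} (hε : 0 < ε) :
    ∀ᶠ X : ℕ in atTop, ((Nat.log 2 X : ℝ) + 1) ≤ (X : ℝ) ^ ε := by
  have h1 : ∀ᶠ x : ℝ in atTop, ‖Real.log x‖ ≤ (Real.log 2 / 2) * ‖x ^ ε‖ :=
    (isLittleO_log_rpow_atTop hε).bound (by have := Real.log_pos (by norm_num : (1:ℝ) < 2); positivity)
  have h2 : ∀ᶠ x : ℝ in atTop, (2 : ℝ) ≤ x ^ ε :=
    (tendsto_rpow_atTop hε).eventually_ge_atTop 2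
  have h3 := (tendsto_natCast_atTop_atTop (R := ℝ)).eventually
    (h1.and (h2.and (eventually_ge_atTop (1 : ℝ))))
  filter_upwards [h3] with X hX
  obtain ⟨ha, hb, hc⟩ := hX
  have h4 : (Nat.log 2 X : ℝ) ≤ Real.logb 2 X := by
    exact_mod_cast Real.natLog_le_logb X 2
  have hlog2 : 0 < Real.log 2 := Real.log_pos (by norm_num)
  have h5 : Real.log X ≤ (Real.log 2 / 2) * (X : ℝ) ^ ε := by
    rw [Real.norm_eq_abs, Real.norm_eq_abs, abs_of_nonneg (Real.log_nonneg hc),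
      abs_of_nonneg (Real.rpow_nonneg (by linarith) _)] at ha
    exact ha
  have h6 : Real.logb 2 X ≤ (X : ℝ) ^ ε / 2 := by
    rw [Real.logb, div_le_iff₀ hlog2]
    calc Real.log X ≤ (Real.log 2 / 2) * (X : ℝ) ^ ε := h5
      _ = (X : ℝ) ^ ε / 2 * Real.log 2 := by ring
  linarith

lemma growth {σ τ D : ℝ} (hσ : 0 ≤ σ) (hστ : σ < τ) (hD : 0 < D) :
    ∀ᶠ X : ℕ in atTop, (D * (X : ℝ) ^ σ + 1) * ((Nat.log 2 X : ℝ) + 1) + 1 ≤ (X : ℝ) ^ τ := by
  set ε := (τ - σ) / 3 with hε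
  have hεpos : 0 < ε := by rw [hε]; linarith
  have h2 : ∀ᶠ x : ℝ in atTop, (D + 2 : ℝ) ≤ x ^ ε :=
    (tendsto_rpow_atTop hεpos).eventually_ge_atTop _
  have h3 := (tendsto_natCast_atTop_atTop (R := ℝ)).eventually
    (h2.and (eventually_ge_atTop (1 : ℝ)))
  filter_upwards [h3, log_small hεpos] with X hX hlog
  obtain ⟨hb, hc⟩ := hX
  have hX0 : (0 : ℝ) < X := by linarith
  have h1 : (1 : ℝ) ≤ (X : ℝ) ^ σ := Real.one_le_rpow hc hσ
  have h4 : D * (X : ℝ) ^ σ + 1 ≤ (X : ℝ) ^ (σ + ε) := by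
    rw [Real.rpow_add hX0]
    nlinarith
  have h5 : (D * (X : ℝ) ^ σ + 1) * ((Nat.log 2 X : ℝ) + 1) ≤ (X : ℝ) ^ (σ + 2 * ε) := by
    calc (D * (X : ℝ) ^ σ + 1) * ((Nat.log 2 X : ℝ) + 1)
        ≤ (X : ℝ) ^ (σ + ε) * (X : ℝ) ^ ε := by
          apply mul_le_mul h4 hlog (by positivity) (by positivity)
      _ = (X : ℝ) ^ (σ + 2 * ε) := by
          rw [← Real.rpow_add hX0]
          congr 1
          ring
  have h6 : (1 : ℝ) ≤ (X : ℝ) ^ (σ + 2 * ε) := Real.one_le_rpow hc (by linarith)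
  calc (D * (X : ℝ) ^ σ + 1) * ((Nat.log 2 X : ℝ) + 1) + 1
      ≤ 2 * (X : ℝ) ^ (σ + 2 * ε) := by linarith
    _ ≤ (X : ℝ) ^ ε * (X : ℝ) ^ (σ + 2 * ε) := by
        apply mul_le_mul_of_nonneg_right _ (by positivity)
        linarith
    _ = (X : ℝ) ^ τ := by
        rw [← Real.rpow_add hX0]
        congr 1
        rw [hε]
        ring

theorem iter {A : Set ℕ} {γ C : ℝ} (hγ : 1 ≤ γ) (hC : 0 < C)
    (hp : ∀ L : ℕ, 1 ≤ L → (cplx A L : ℝ) ≤ C * (L : ℝ) ^ γ) (c j : ℕ) {τ τ' : ℝ}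
    (hτ' : 0 < τ') (hτ : τ' < 1 - γ * (1 - τ)) :
    ∀ᶠ X : ℕ in atTop, ∀ N : ℕ, (X : ℝ) ^ τ ≤ N → St A X c j N →
      ∃ N' : ℕ, (X : ℝ) ^ τ' ≤ N' ∧ St A X (3 + 2 * c) (j + 1) N' := by
  have hγ0 : 0 < γ := by linarith
  set σ := 1 - (1 - τ') / γ with hσ
  have hσ0 : 0 < σ := by
    rw [hσ, sub_pos, div_lt_one hγ0]
    linarith
  have hστ : σ < τ := by
    have h1 : 1 - τ < (1 - τ') / γ := by
      rw [lt_div_iff₀ hγ0]
      linarith
    rw [hσ]
    linarith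
  have hσγ : σ * γ + (1 - γ) = τ' := by
    rw [hσ]
    field_simp
    ring
  set D := C * ((3 + 2 * c : ℕ) : ℝ) ^ γ with hD
  have hc0 : (0 : ℝ) < ((3 + 2 * c : ℕ) : ℝ) := by positivity
  have hD0 : 0 < D := by positivity
  set E := D ^ (1 / γ) with hE
  have hE0 : 0 < E := by positivity
  have hEγ : E ^ γ = D := by
    rw [hE, ← Real.rpow_mul hD0.le, one_div, inv_mul_cancel₀ hγ0.ne', Real.rpow_one]
  have h1 : ∀ᶠ x : ℝ in atTop, (1 / E : ℝ) ≤ x ^ σ :=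
    (tendsto_rpow_atTop hσ0).eventually_ge_atTop _
  have h2 := (tendsto_natCast_atTop_atTop (R := ℝ)).eventually
    (h1.and (eventually_ge_atTop (1 : ℝ)))
  filter_upwards [h2, growth hσ0.le hστ hE0] with X hX hgr N hN hSt
  obtain ⟨hX1, hX2⟩ := hX
  have hX0 : (0 : ℝ) < X := by linarith
  have hEX : 1 ≤ E * (X : ℝ) ^ σ := by
    rw [div_le_iff₀ hE0] at hX1
    linarith
  have hlog0 : (0 : ℝ) ≤ (Nat.log 2 X : ℝ) := by positivity
  have hN2 : 2 ≤ N := by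
    have : (2 : ℝ) ≤ N := by
      nlinarith
    exact_mod_cast this
  obtain ⟨n, b, L', N', hn, hNb, hbn, hL1, hL', hnb, hnext⟩ := step (K := Nat.log 2 X + 1)
    (Nat.lt_pow_succ_log_self (by norm_num) X).le hN2 hSt
  -- lower bound for `b`
  have hb : E * (X : ℝ) ^ σ ≤ b := by
    have h3 : (N : ℝ) - 1 ≤ ((Nat.log 2 X : ℝ) + 1) * (b + 1) := by
      have h4 : N ≤ (Nat.log 2 X + 1) * (b + 1) + 1 := by omega
      have h5 : (N : ℝ) ≤ ((Nat.log 2 X + 1) * (b + 1) + 1 : ℕ) := by exact_mod_cast h4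
      push_cast at h5
      linarith
    have h4 : (E * (X : ℝ) ^ σ + 1) * ((Nat.log 2 X : ℝ) + 1) ≤
        (b + 1) * ((Nat.log 2 X : ℝ) + 1) := by linarith
    have h5 := le_of_mul_le_mul_right h4 (by linarith)
    linarith
  have hb1 : (1 : ℝ) ≤ b := le_trans hEX hb
  have hb1' : 1 ≤ b := by exact_mod_cast hb1
  refine ⟨N', ?_, hnext hb1'⟩
  have hn1 : (1 : ℝ) ≤ n := by exact_mod_cast hn
  have hbn' : (b : ℝ) * n ≤ X := by exact_mod_cast hbn
  have h3 : (n : ℝ) * b ≤ D * (n : ℝ) ^ γ * N' := by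
    have h4 : (n : ℝ) * b ≤ cplx A L' * N' := by exact_mod_cast hnb
    have h5 : (cplx A L' : ℝ) ≤ C * (((3 + 2 * c : ℕ) : ℝ) ^ γ * (n : ℝ) ^ γ) := by
      refine le_trans (hp L' hL1) ?_
      apply mul_le_mul_of_nonneg_left _ hC.le
      rw [← Real.mul_rpow hc0.le (by linarith)]
      apply Real.rpow_le_rpow (by positivity) _ (by linarith)
      exact_mod_cast hL'
    calc (n : ℝ) * b ≤ cplx A L' * N' := h4
      _ ≤ C * (((3 + 2 * c : ℕ) : ℝ) ^ γ * (n : ℝ) ^ γ) * N' := by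
          apply mul_le_mul_of_nonneg_right h5 (by positivity)
      _ = D * (n : ℝ) ^ γ * N' := by rw [hD]; ring
  have hnpos : (0 : ℝ) < n := by linarith
  have hbpos : (0 : ℝ) < b := by linarith
  have h4 : (b : ℝ) * (n : ℝ) ^ (1 - γ) ≤ D * N' := by
    have h5 : (n : ℝ) ^ (1 - γ) = n / (n : ℝ) ^ γ := by
      rw [Real.rpow_sub hnpos, Real.rpow_one]
    rw [h5]
    rw [mul_div_assoc', div_le_iff₀ (by positivity)]
    linarith
  have h6 : ((X : ℝ) / b) ^ (1 - γ) ≤ (n : ℝ) ^ (1 - γ) := by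
    apply Real.rpow_le_rpow_of_nonpos hnpos _ (by linarith)
    rw [le_div_iff₀ hbpos]
    linarith
  have h7 : (b : ℝ) * ((X : ℝ) / b) ^ (1 - γ) = (b : ℝ) ^ γ * (X : ℝ) ^ (1 - γ) := by
    rw [Real.div_rpow hX0.le hbpos.le]
    have : (b : ℝ) ^ (1 - γ) = b / (b : ℝ) ^ γ := by
      rw [Real.rpow_sub hbpos, Real.rpow_one]
    rw [this]
    have hbγ : (0 : ℝ) < (b : ℝ) ^ γ := by positivity
    field_simp
  have h8 : D * (X : ℝ) ^ τ' ≤ D * N' := by
    calc D * (X : ℝ) ^ τ' = (E * (X : ℝ) ^ σ) ^ γ * (X : ℝ) ^ (1 - γ) := by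
          rw [Real.mul_rpow hE0.le (by positivity), hEγ, ← Real.rpow_mul hX0.le, mul_assoc D,
            ← Real.rpow_add hX0, hσγ]
      _ ≤ (b : ℝ) ^ γ * (X : ℝ) ^ (1 - γ) := by
          apply mul_le_mul_of_nonneg_right _ (by positivity)
          exact Real.rpow_le_rpow (by positivity) hb (by linarith)
      _ = (b : ℝ) * ((X : ℝ) / b) ^ (1 - γ) := h7.symm
      _ ≤ (b : ℝ) * (n : ℝ) ^ (1 - γ) := by
          apply mul_le_mul_of_nonneg_left h6 hbpos.le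
      _ ≤ D * N' := h4
  exact le_of_mul_le_mul_left h8 hD0

/-- the constants `c_0 = 1`, `c_{j+1} = 3 + 2 c_j` -/
def cc : ℕ → ℕ
  | 0 => 1
  | j + 1 => 3 + 2 * cc j

theorem states {A : Set ℕ} {γ C α : ℝ} (hγ : 1 ≤ γ) (hC : 0 < C)
    (hp : ∀ L : ℕ, 1 ≤ L → (cplx A L : ℝ) ≤ C * (L : ℝ) ^ γ) (j : ℕ) :
    ∀ τ : ℝ, 0 < τ → τ < 1 - γ ^ j * (1 - α) →
      ∀ᶠ X : ℕ in atTop, (X : ℝ) ^ α ≤ cnt A X →
        ∃ N : ℕ, (X : ℝ) ^ τ ≤ N ∧ St A X (cc j) j N := by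
  induction j with
  | zero =>
    intro τ hτ hτα
    filter_upwards [eventually_ge_atTop 1] with X hX hA
    refine ⟨cnt A X, le_trans ?_ hA, base A X⟩
    apply Real.rpow_le_rpow_of_exponent_le (by exact_mod_cast hX)
    simp only [pow_zero, one_mul] at hτα
    linarith
  | succ j ih =>
    intro τ' hτ' hlt
    have hγ0 : 0 < γ := by linarith
    have h1 : γ ^ j * (1 - α) < (1 - τ') / γ := by
      rw [lt_div_iff₀ hγ0]
      rw [pow_succ] at hlt
      linarith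
    obtain ⟨θ, hθ1, hθ2⟩ := exists_between h1
    have h2 : (1 - τ') / γ < 1 := by
      rw [div_lt_one hγ0]
      linarith
    have h3 := ih (1 - θ) (by linarith) (by linarith)
    have h4 := iter hγ hC hp (cc j) j (τ := 1 - θ) (τ' := τ') hτ' (by
      have : θ * γ < 1 - τ' := by rwa [lt_div_iff₀ hγ0] at hθ2
      linarith)
    filter_upwards [h3, h4] with X h5 h6 hA
    obtain ⟨N, hN, hSt⟩ := h5 hA
    exact h6 N hN hSt

/-- A set with at least `X ^ α` elements below `X` for arbitrarily large `X`, and with at most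
`C L ^ γ` factors of length `L`, contains cubes of every dimension `m + 1` with
`γ ^ m (1 - α) < 1`. -/
theorem exists_cube {A : Set ℕ} {γ C α : ℝ} (hγ : 1 ≤ γ)
    (hp : ∀ L : ℕ, 1 ≤ L → (cplx A L : ℝ) ≤ C * (L : ℝ) ^ γ)
    (hA : ∃ᶠ X : ℕ in atTop, (X : ℝ) ^ α ≤ cnt A X) (m : ℕ) (hm : γ ^ m * (1 - α) < 1) :
    ∃ (a : ℕ) (l : List ℕ), l.length = m + 1 ∧ (∀ d ∈ l, 1 ≤ d) ∧ a ∈ cubeSet A l := by
  have hC' : 0 < max C 1 := lt_of_lt_of_le one_pos (le_max_right _ _)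
  have hp' : ∀ L : ℕ, 1 ≤ L → (cplx A L : ℝ) ≤ max C 1 * (L : ℝ) ^ γ := by
    intro L hL
    refine le_trans (hp L hL) ?_
    apply mul_le_mul_of_nonneg_right (le_max_left _ _) (by positivity)
  have hτ : 0 < (1 - γ ^ m * (1 - α)) / 2 := by linarith
  have h1 := states (α := α) hγ hC' hp' m ((1 - γ ^ m * (1 - α)) / 2) hτ (by linarith)
  have hbig : ∀ᶠ X : ℕ in atTop, (2 : ℝ) ≤ (X : ℝ) ^ ((1 - γ ^ m * (1 - α)) / 2) :=
    (tendsto_natCast_atTop_atTop (R := ℝ)).eventually ((tendsto_rpow_atTop hτ).eventually_ge_atTop 2)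
  obtain ⟨X, hX, h2, h3⟩ := (hA.and_eventually (h1.and hbig)).exists
  obtain ⟨N, hN, n, L, w, hn, -, hcard, hsep, x, l, hl, hpos, hcube⟩ := h2 hX
  have h4 : (2 : ℝ) ≤ N := le_trans h3 hN
  have h5 : 1 < N := by exact_mod_cast h4
  obtain ⟨s, hs, s', hs', hne⟩ := Finset.one_lt_card.1 (lt_of_lt_of_le h5 hcard)
  rw [Finset.mem_filter] at hs hs'
  have key : ∀ s s', fac A L s = w → fac A L s' = w → s < s' →
      ∃ (a : ℕ) (l : List ℕ), l.length = m + 1 ∧ (∀ d ∈ l, 1 ≤ d) ∧ a ∈ cubeSet A l := by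
    intro s s' h6 h7 hlt
    refine ⟨s + x, (s' - s) :: l, by simp [hl], ?_, hcube s h6, ?_⟩
    · intro d hd
      rw [List.mem_cons] at hd
      rcases hd with rfl | hd
      · omega
      · exact hpos d hd
    · have h8 := hcube s' h7
      rwa [show s' + x = s + x + (s' - s) by omega] at h8
  rcases lt_or_gt_of_ne hne with h6 | h6
  · exact key s s' hs.2 hs'.2 h6
  · exact key s' s hs'.2 hs.2 h6

end Pool.Agent.W227.FC
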