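import Pool.Agent.W227.FC.Iter

/-!
# Factor complexity and representation functions
-/

set_option autoImplicit false

namespace Pool.Agent.W227.FC

open Finset Classical Filter Topology

lemma sub_sum {A : Set ℕ} {l l' : List ℕ} (hs : List.Sublist l' l) :
    ∀ t, t ∈ cubeSet A l → t + l'.sum ∈ A := by
  induction hs with
  | slnil =>
    intro t ht
    simpa [cubeSet] using ht
  | cons d _ ih =>
    intro t ht
    exact ih t ht.1
  | cons_cons d _ ih =>
    intro t ht
    have := ih (t + d) ht.2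
    rw [List.sum_cons, ← add_assoc]
    exact this

lemma take_lt {l : List ℕ} (hl : ∀ d ∈ l, 1 ≤ d) :
    ∀ k', k' ≤ l.length → ∀ k, k < k' → (l.take k).sum < (l.take k').sum := by
  intro k'
  induction k' with
  | zero =>
    intro _ k hk
    omega
  | succ k' ih =>
    intro hk' k hk
    rw [List.sum_take_succ l k' (by omega)]
    have h1 : 1 ≤ l[k'] := hl _ (List.getElem_mem _)
    rcases Nat.lt_succ_iff_lt_or_eq.1 hk with h2 | h2
    · have := ih (by omega) k h2
      omega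
    · rw [h2]
      omega

/-- the pairs of opposite vertices used -/
lemma pairs {A : Set ℕ} {a m : ℕ} {l : List ℕ} (hl : l.length = m) (hpos : ∀ d ∈ l, 1 ≤ d)
    (hc : a ∈ cubeSet A l) :
    ∃ (f : ℕ → ℕ) (S : ℕ), (∀ k ≤ m, f k ≤ S ∧ a + f k ∈ A ∧ a + (S - f k) ∈ A) ∧
      ∀ k ≤ m, ∀ k' ≤ m, f k = f k' → k = k' := by
  refine ⟨fun k => (l.take k).sum, l.sum, ?_, ?_⟩
  · intro k _
    have h1 : (l.take k).sum + (l.drop k).sum = l.sum := List.sum_take_add_sum_drop l k
    refine ⟨by simp only; omega, sub_sum (List.take_sublist k l) a hc, ?_⟩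
    have h2 : l.sum - (l.take k).sum = (l.drop k).sum := by omega
    simp only
    rw [h2]
    exact sub_sum (List.drop_sublist k l) a hc
  · intro k hk k' hk' h
    simp only at h
    rcases lt_trichotomy k k' with h1 | h1 | h1
    · have := take_lt hpos k' (by omega) k h1
      omega
    · exact h1
    · have := take_lt hpos k (by omega) k' h1
      omega

lemma cubeSet_mono {A B : Set ℕ} (h : B ⊆ A) (l : List ℕ) : cubeSet B l ⊆ cubeSet A l := by
  induction l with
  | nil => exact h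
  | cons d l ih =>
    intro t ht
    exact ⟨ih ht.1, ih ht.2⟩

lemma rep_pairs {A : Set ℕ} {a m : ℕ} {l : List ℕ} (hl : l.length = m) (hpos : ∀ d ∈ l, 1 ≤ d)
    (hc : a ∈ cubeSet A l) :
    ∃ n, m + 1 ≤ {p : ℕ × ℕ | p.1 ∈ A ∧ p.2 ∈ A ∧ p.1 + p.2 = n}.ncard := by
  obtain ⟨f, S, h1, h2⟩ := pairs hl hpos hc
  refine ⟨2 * a + S, ?_⟩
  have hfin : ({p : ℕ × ℕ | p.1 ∈ A ∧ p.2 ∈ A ∧ p.1 + p.2 = 2 * a + S}).Finite := by
    apply Set.Finite.subset (Finset.finite_toSet
      (range (2 * a + S + 1) ×ˢ range (2 * a + S + 1)))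
    rintro p ⟨_, _, hp⟩
    rw [Finset.mem_coe, Finset.mem_product, Finset.mem_range, Finset.mem_range]
    omega
  have hinj : Set.InjOn (fun k => ((a + f k, a + (S - f k)) : ℕ × ℕ)) (range (m + 1) : Finset ℕ) := by
    intro k hk k' hk' h
    rw [Finset.mem_coe, Finset.mem_range] at hk hk'
    simp only [Prod.mk.injEq] at h
    exact h2 k (by omega) k' (by omega) (by omega)
  have h3 : ((range (m + 1)).image (fun k => ((a + f k, a + (S - f k)) : ℕ × ℕ))).card = m + 1 := by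
    rw [Finset.card_image_of_injOn hinj, Finset.card_range]
  rw [← h3, ← Set.ncard_coe_finset]
  apply Set.ncard_le_ncard _ hfin
  intro p hp
  rw [Finset.mem_coe, Finset.mem_image] at hp
  obtain ⟨k, hk, rfl⟩ := hp
  rw [Finset.mem_range] at hk
  obtain ⟨h4, h5, h6⟩ := h1 k (by omega)
  refine ⟨h5, h6, ?_⟩
  simp only
  omega

lemma multi_finite (A : Set ℕ) (h n : ℕ) :
    {M : Multiset ℕ | M.card = h ∧ (∀ x ∈ M, x ∈ A) ∧ M.sum = n}.Finite := by
  apply Set.Finite.subset ((Finset.finite_toSet ((range (n + 1)).sym h)).image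
    (fun m : Sym ℕ h => (m : Multiset ℕ)))
  rintro M ⟨h1, -, h3⟩
  refine ⟨⟨M, h1⟩, ?_, rfl⟩
  rw [Finset.mem_coe, Finset.mem_sym_iff]
  intro x hx
  rw [Finset.mem_range]
  have : x ≤ M.sum := Multiset.le_sum_of_mem hx
  omega

lemma rep_multi {A : Set ℕ} {a m : ℕ} {l : List ℕ} (hl : l.length = 2 * m)
    (hpos : ∀ d ∈ l, 1 ≤ d) (hc : a ∈ cubeSet A l) (h : ℕ) (hh : 2 ≤ h) :
    ∃ n, m + 1 ≤ {M : Multiset ℕ | M.card = h ∧ (∀ x ∈ M, x ∈ A) ∧ M.sum = n}.ncard := by
  obtain ⟨f, S, h1, h2⟩ := pairs hl hpos hc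
  have ha : a + f 0 ∈ A := (h1 0 (by omega)).2.1
  set e := a + f 0 with he
  set F : ℕ → Multiset ℕ := fun k => (a + f k) ::ₘ (a + (S - f k)) ::ₘ Multiset.replicate (h - 2) e
    with hF
  refine ⟨2 * a + S + (h - 2) * e, ?_⟩
  have hmem : ∀ k ≤ 2 * m, F k ∈ {M : Multiset ℕ | M.card = h ∧ (∀ x ∈ M, x ∈ A) ∧
      M.sum = 2 * a + S + (h - 2) * e} := by
    intro k hk
    obtain ⟨h4, h5, h6⟩ := h1 k hk
    refine ⟨?_, ?_, ?_⟩
    · rw [hF]
      simp only [Multiset.card_cons, Multiset.card_replicate]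
      omega
    · intro x hx
      rw [hF] at hx
      simp only [Multiset.mem_cons, Multiset.mem_replicate] at hx
      rcases hx with rfl | rfl | ⟨-, rfl⟩
      · exact h5
      · exact h6
      · exact ha
    · rw [hF]
      simp only [Multiset.sum_cons, Multiset.sum_replicate, smul_eq_mul]
      omega
  have hinj : ∀ k ≤ 2 * m, ∀ k' ≤ 2 * m, F k = F k' → f k = f k' ∨ f k + f k' = S := by
    intro k hk k' hk' heq
    have h3 := (h1 k hk).1
    have h4 := (h1 k' hk').1
    rw [hF] at heq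
    simp only at heq
    have h5 : (a + f k) ::ₘ ({a + (S - f k)} : Multiset ℕ) =
        (a + f k') ::ₘ ({a + (S - f k')} : Multiset ℕ) := by
      have h6 : ∀ u v : ℕ, u ::ₘ v ::ₘ Multiset.replicate (h - 2) e =
          (u ::ₘ ({v} : Multiset ℕ)) + Multiset.replicate (h - 2) e := by
        intro u v
        rw [Multiset.cons_add, Multiset.singleton_add]
      rw [h6, h6] at heq
      exact add_right_cancel heq
    have h7 : a + f k ∈ (a + f k') ::ₘ ({a + (S - f k')} : Multiset ℕ) := by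
      rw [← h5]
      exact Multiset.mem_cons_self _ _
    rw [Multiset.mem_cons, Multiset.mem_singleton] at h7
    rcases h7 with h8 | h8
    · left
      omega
    · right
      omega
  -- one of the two halves has more than `m` elements
  set P := (range (2 * m + 1)).filter (fun k => 2 * f k ≤ S) with hP
  set Q := (range (2 * m + 1)).filter (fun k => ¬ (2 * f k ≤ S)) with hQ
  have hPQ : P.card + Q.card = 2 * m + 1 := by
    rw [hP, hQ, Finset.card_filter_add_card_filter_not, Finset.card_range]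
  have key : ∀ R : Finset ℕ, R ⊆ range (2 * m + 1) → m + 1 ≤ R.card →
      (∀ k ∈ R, ∀ k' ∈ R, f k + f k' = S → f k = f k') →
      m + 1 ≤ {M : Multiset ℕ | M.card = h ∧ (∀ x ∈ M, x ∈ A) ∧
        M.sum = 2 * a + S + (h - 2) * e}.ncard := by
    intro R hR hcard hsym
    have hi : Set.InjOn F (R : Set ℕ) := by
      intro k hk k' hk' heq
      have h3 := Finset.mem_range.1 (hR hk)
      have h4 := Finset.mem_range.1 (hR hk')
      rcases hinj k (by omega) k' (by omega) heq with h5 | h5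
      · exact h2 k (by omega) k' (by omega) h5
      · exact h2 k (by omega) k' (by omega) (hsym k hk k' hk' h5)
    have h3 : (R.image F).card = R.card := Finset.card_image_of_injOn hi
    refine le_trans hcard ?_
    rw [← h3, ← Set.ncard_coe_finset]
    apply Set.ncard_le_ncard _ (multi_finite A h _)
    intro M hM
    rw [Finset.mem_coe, Finset.mem_image] at hM
    obtain ⟨k, hk, rfl⟩ := hM
    have h4 := Finset.mem_range.1 (hR hk)
    exact hmem k (by omega)
  by_cases hc2 : m + 1 ≤ P.card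
  · refine key P (Finset.filter_subset _ _) hc2 ?_
    intro k hk k' hk' hs
    rw [hP, Finset.mem_filter] at hk hk'
    omega
  · refine key Q (Finset.filter_subset _ _) (by omega) ?_
    intro k hk k' hk' hs
    rw [hQ, Finset.mem_filter] at hk hk'
    omega

/-- The factor complexity of the characteristic sequence of `A`: the number of different sets
`{i < L | s + i ∈ A}`, `s = 0, 1, 2, ...`. -/
noncomputable def complexity (A : Set ℕ) (L : ℕ) : ℕ :=
  (Set.range (fun s : ℕ => {i : Fin L | s + (i : ℕ) ∈ A})).ncard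

lemma cplx_le (A : Set ℕ) (L : ℕ) : cplx A L ≤ complexity A L := by
  unfold cplx complexity
  set F := (range L).powerset.filter (fun w => ∃ s, fac A L s = w) with hF
  set g : Finset ℕ → Set (Fin L) := fun w => {i : Fin L | (i : ℕ) ∈ w} with hg
  have hinj : Set.InjOn g (F : Set (Finset ℕ)) := by
    intro w hw w' hw' heq
    rw [hF, Finset.mem_coe, Finset.mem_filter, Finset.mem_powerset] at hw hw'
    ext i
    constructor
    · intro hi
      have h1 := Finset.mem_range.1 (hw.1 hi)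
      have h2 : (⟨i, h1⟩ : Fin L) ∈ g w := hi
      rw [heq] at h2
      exact h2
    · intro hi
      have h1 := Finset.mem_range.1 (hw'.1 hi)
      have h2 : (⟨i, h1⟩ : Fin L) ∈ g w' := hi
      rw [← heq] at h2
      exact h2
  rw [← Finset.card_image_of_injOn hinj, ← Set.ncard_coe_finset]
  apply Set.ncard_le_ncard _ (Set.toFinite _)
  intro W hW
  rw [Finset.mem_coe, Finset.mem_image] at hW
  obtain ⟨w, hw, rfl⟩ := hW
  rw [hF, Finset.mem_filter] at hw
  obtain ⟨-, s, rfl⟩ := hw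
  refine ⟨s, ?_⟩
  ext i
  rw [hg]
  simp only [Set.mem_setOf_eq, mem_fac]
  exact ⟨fun h => ⟨i.2, h⟩, fun h => h.2⟩

lemma cplx_two (A : Set ℕ) (L : ℕ) : cplx A L ≤ 2 ^ L := by
  unfold cplx
  refine le_trans (Finset.card_filter_le _ _) ?_
  rw [Finset.card_powerset, Finset.card_range]

lemma cnt_eq (A : Set ℕ) (N : ℕ) : (A ∩ Set.Iio N).ncard = cnt A N := by
  unfold cnt
  rw [← Set.ncard_coe_finset]
  congr 1
  ext x
  simp only [Set.mem_inter_iff, Set.mem_Iio, Finset.coe_filter, Finset.mem_range, Set.mem_setOf_eq]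
  tauto

/-- Main theorem: cubes from low factor complexity. -/
theorem cube_of_complexity {B : Set ℕ} {γ α : ℝ} (hγ : 1 ≤ γ)
    (hp : ∀ᶠ L : ℕ in atTop, (complexity B L : ℝ) ≤ (L : ℝ) ^ γ)
    (hB : ∃ᶠ N : ℕ in atTop, (N : ℝ) ^ α ≤ (B ∩ Set.Iio N).ncard) (m : ℕ)
    (hm : γ ^ m * (1 - α) < 1) :
    ∃ (a : ℕ) (l : List ℕ), l.length = m + 1 ∧ (∀ d ∈ l, 1 ≤ d) ∧ a ∈ cubeSet B l := by
  obtain ⟨L0, hL0⟩ := eventually_atTop.1 hp
  refine exists_cube (γ := γ) (C := 2 ^ L0) (α := α) hγ ?_ ?_ m hm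
  · intro L hL
    have hL1 : (1 : ℝ) ≤ L := by exact_mod_cast hL
    have h1 : (1 : ℝ) ≤ (L : ℝ) ^ γ := Real.one_le_rpow hL1 (by linarith)
    have h2 : (1 : ℝ) ≤ 2 ^ L0 := one_le_pow₀ (by norm_num)
    by_cases h : L0 ≤ L
    · calc (cplx B L : ℝ) ≤ complexity B L := by exact_mod_cast cplx_le B L
        _ ≤ (L : ℝ) ^ γ := hL0 L h
        _ ≤ 2 ^ L0 * (L : ℝ) ^ γ := by nlinarith
    · have h3 : (cplx B L : ℝ) ≤ 2 ^ L := by exact_mod_cast cplx_two B L
      have h4 : (2 : ℝ) ^ L ≤ 2 ^ L0 := pow_le_pow_right₀ (by norm_num) (by omega)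
      calc (cplx B L : ℝ) ≤ 2 ^ L0 := le_trans h3 h4
        _ ≤ 2 ^ L0 * (L : ℝ) ^ γ := by nlinarith
  · refine hB.mono ?_
    intro N hN
    rwa [cnt_eq] at hN

/-- powers are smaller than bases with a smaller exponent -/
lemma pow_below {c α β : ℝ} (hc : 0 < c) (h : α < β) :
    ∀ᶠ N : ℕ in atTop, (N : ℝ) ^ α ≤ c * (N : ℝ) ^ β := by
  have h1 : ∀ᶠ x : ℝ in atTop, (1 / c : ℝ) ≤ x ^ (β - α) :=
    (tendsto_rpow_atTop (by linarith)).eventually_ge_atTop _
  filter_upwards [(tendsto_natCast_atTop_atTop (R := ℝ)).eventually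
    (h1.and (eventually_gt_atTop 0))] with N hN
  obtain ⟨h2, h3⟩ := hN
  rw [div_le_iff₀ hc] at h2
  have h4 : (N : ℝ) ^ β = (N : ℝ) ^ (β - α) * (N : ℝ) ^ α := by
    rw [← Real.rpow_add h3]
    congr 1
    ring
  rw [h4]
  have h5 : (0 : ℝ) ≤ (N : ℝ) ^ α := by positivity
  nlinarith

/-- An asymptotic basis of order `h` has at least `c N ^ (1 / h)` elements below `N`. -/
lemma count_of_basis {A : Set ℕ} {h : ℕ} (hh : 1 ≤ h)
    (hb : ∀ᶠ n : ℕ in atTop, ∃ v : Fin h → ℕ, (∀ i, v i ∈ A) ∧ ∑ i, v i = n) :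
    ∀ᶠ N : ℕ in atTop, (1 / 2 : ℝ) * (N : ℝ) ^ (1 / (h : ℝ)) ≤ (A ∩ Set.Iio N).ncard := by
  obtain ⟨n0, hn0⟩ := eventually_atTop.1 hb
  filter_upwards [eventually_ge_atTop (2 * n0 + 1)] with N hN
  rw [cnt_eq]
  choose v hv using hn0
  have h1 : N - n0 ≤ (cnt A N) ^ h := by
    have h2 : ∀ n : ℕ, ∃ w : Fin h → ℕ, n0 ≤ n → (∀ i, w i ∈ A) ∧ ∑ i, w i = n := by
      intro n
      by_cases hn : n0 ≤ n
      · exact ⟨v n hn, fun _ => hv n hn⟩
      · exact ⟨fun _ => 0, fun h' => absurd h' hn⟩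
    choose w hw using h2
    have h3 : (Finset.Ico n0 N).image w ⊆
        Fintype.piFinset (fun _ : Fin h => (range N).filter (fun s => s ∈ A)) := by
      intro u hu
      rw [Finset.mem_image] at hu
      obtain ⟨n, hn, rfl⟩ := hu
      rw [Finset.mem_Ico] at hn
      obtain ⟨h4, h5⟩ := hw n hn.1
      rw [Fintype.mem_piFinset]
      intro i
      rw [Finset.mem_filter, Finset.mem_range]
      refine ⟨?_, h4 i⟩
      have : w n i ≤ ∑ i, w n i := Finset.single_le_sum (fun _ _ => Nat.zero_le _)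
        (Finset.mem_univ i)
      omega
    have h4 := Finset.card_le_card h3
    rw [Finset.card_image_of_injOn, Nat.card_Ico, Fintype.card_piFinset] at h4
    · rw [Finset.prod_const, Finset.card_univ, Fintype.card_fin] at h4
      exact h4
    · intro n hn n' hn' heq
      rw [Finset.coe_Ico, Set.mem_Ico] at hn hn'
      have h5 := (hw n hn.1).2
      have h6 := (hw n' hn'.1).2
      rw [← h5, ← h6, heq]
  have h2 : (N : ℝ) / 2 ≤ ((cnt A N : ℕ) : ℝ) ^ h := by
    have h3 : N ≤ 2 * (cnt A N) ^ h := by omega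
    have h4 : (N : ℝ) ≤ 2 * ((cnt A N : ℕ) : ℝ) ^ h := by exact_mod_cast h3
    linarith
  have hh0 : (h : ℝ) ≠ 0 := by positivity
  have h3 : ((N : ℝ) / 2) ^ (1 / (h : ℝ)) ≤ cnt A N := by
    calc ((N : ℝ) / 2) ^ (1 / (h : ℝ)) ≤ (((cnt A N : ℕ) : ℝ) ^ h) ^ (1 / (h : ℝ)) :=
          Real.rpow_le_rpow (by positivity) h2 (by positivity)
      _ = cnt A N := by
          rw [← Real.rpow_natCast, ← Real.rpow_mul (by positivity), mul_one_div, div_self hh0,
            Real.rpow_one]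
  refine le_trans ?_ h3
  rw [show (N : ℝ) / 2 = 2⁻¹ * N by ring, Real.mul_rpow (by norm_num) (by positivity)]
  apply mul_le_mul_of_nonneg_right _ (by positivity)
  have h4 : (1 / 2 : ℝ) = (2 : ℝ)⁻¹ ^ (1 : ℝ) := by norm_num
  rw [h4]
  apply Real.rpow_le_rpow_of_exponent_ge (by norm_num) (by norm_num)
  rw [div_le_one (by positivity)]
  exact_mod_cast hh

end Pool.Agent.W227.FC
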