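import Mathlib

/-!
# Factor complexity and cubes: the combinatorial step

`fac A L s` is the factor of length `L` at position `s` of the characteristic sequence of `A`.
-/

set_option autoImplicit false

namespace Pool.Agent.W227.FC

open Finset Classical

/-- The factor of length `L` at position `s` of the characteristic sequence of `A`. -/
noncomputable def fac (A : Set ℕ) (L s : ℕ) : Finset ℕ := (range L).filter (fun i => s + i ∈ A)

lemma mem_fac {A : Set ℕ} {L s i : ℕ} : i ∈ fac A L s ↔ i < L ∧ s + i ∈ A := by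
  unfold fac
  rw [mem_filter, mem_range]

lemma fac_sub {A : Set ℕ} {L L' s s' y : ℕ} (h : fac A L' s = fac A L' s') (hy : y + L ≤ L') :
    fac A L (s + y) = fac A L (s' + y) := by
  ext i
  rw [mem_fac, mem_fac]
  have h1 : y + i ∈ fac A L' s ↔ y + i ∈ fac A L' s' := by rw [h]
  rw [mem_fac, mem_fac] at h1
  constructor
  · rintro ⟨h2, h3⟩
    refine ⟨h2, ?_⟩
    rw [add_assoc] at h3 ⊢
    exact (h1.1 ⟨by omega, h3⟩).2
  · rintro ⟨h2, h3⟩
    refine ⟨h2, ?_⟩
    rw [add_assoc] at h3 ⊢
    exact (h1.2 ⟨by omega, h3⟩).2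

/-- The number of factors of length `L`. -/
noncomputable def cplx (A : Set ℕ) (L : ℕ) : ℕ :=
  ((range L).powerset.filter (fun w => ∃ s, fac A L s = w)).card

/-- `t ∈ cubeSet A l` iff all sums `t + ∑_{i ∈ I} l_i` are in `A`. -/
def cubeSet (A : Set ℕ) : List ℕ → Set ℕ
  | [] => A
  | d :: l => {t | t ∈ cubeSet A l ∧ t + d ∈ cubeSet A l}

lemma exists_fiber {α β : Type*} [DecidableEq β] (s : Finset α) (t : Finset β) (f : α → β)
    (h : ∀ a ∈ s, f a ∈ t) (hs : s.Nonempty) :
    ∃ y ∈ t, s.card ≤ t.card * (s.filter (fun a => f a = y)).card ∧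
      (s.filter (fun a => f a = y)).Nonempty := by
  obtain ⟨a0, ha0⟩ := hs
  have ht : t.Nonempty := ⟨f a0, h a0 ha0⟩
  obtain ⟨y, hy, hmax⟩ := Finset.exists_max_image t
    (fun y => (s.filter (fun a => f a = y)).card) ht
  refine ⟨y, hy, ?_, ?_⟩
  · rw [Finset.card_eq_sum_card_fiberwise h]
    have := Finset.sum_le_card_nsmul t (fun y => (s.filter (fun a => f a = y)).card)
      ((s.filter (fun a => f a = y)).card) hmax
    simpa using this
  · rw [← Finset.card_pos]
    have h1 := hmax (f a0) (h a0 ha0)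
    have h2 : 0 < (s.filter (fun a => f a = f a0)).card :=
      Finset.card_pos.2 ⟨a0, by simp [ha0]⟩
    exact lt_of_lt_of_le h2 h1

/-- Many gaps of comparable size. -/
lemma gaps (T : Finset ℕ) (X K : ℕ) (hT : ∀ t ∈ T, t < X) (hX : X ≤ 2 ^ K) (h2 : 2 ≤ T.card) :
    ∃ (i : ℕ) (B : Finset ℕ) (nx : ℕ → ℕ), B.Nonempty ∧ T.card - 1 ≤ K * B.card ∧
      ∀ t ∈ B, t ∈ T ∧ nx t ∈ T ∧ t + 2 ^ i ≤ nx t ∧ nx t < t + 2 ^ (i + 1) ∧
        ∀ y, t < y → y < nx t → y ∉ T := by
  have hne : T.Nonempty := Finset.card_pos.1 (by omega)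
  set M := T.max' hne with hM
  set T' := T.erase M with hT'
  have hT'card : T'.card = T.card - 1 := Finset.card_erase_of_mem (T.max'_mem hne)
  have hT'ne : T'.Nonempty := Finset.card_pos.1 (by omega)
  have hup : ∀ t ∈ T', (T.filter (fun y => t < y)).Nonempty := by
    intro t ht
    rw [hT', Finset.mem_erase] at ht
    refine ⟨M, ?_⟩
    rw [Finset.mem_filter]
    exact ⟨T.max'_mem hne, lt_of_le_of_ne (T.le_max' t ht.2) ht.1⟩
  set nx : ℕ → ℕ := fun t =>
    if h : (T.filter (fun y => t < y)).Nonempty then (T.filter (fun y => t < y)).min' h else 0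
    with hnx
  have hnx1 : ∀ t ∈ T', nx t ∈ T ∧ t < nx t ∧ ∀ y, t < y → y < nx t → y ∉ T := by
    intro t ht
    have h3 := hup t ht
    have h4 : nx t = (T.filter (fun y => t < y)).min' h3 := by
      rw [hnx]
      simp only [h3, dite_true]
    have h5 := (T.filter (fun y => t < y)).min'_mem h3
    rw [← h4, Finset.mem_filter] at h5
    refine ⟨h5.1, h5.2, ?_⟩
    intro y hy1 hy2 hy3
    have h6 := (T.filter (fun y => t < y)).min'_le y (by
      rw [Finset.mem_filter]
      exact ⟨hy3, hy1⟩)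
    rw [← h4] at h6
    omega
  obtain ⟨i, hi, hc, hn⟩ := exists_fiber T' (range K) (fun t => Nat.log 2 (nx t - t)) (by
    intro t ht
    obtain ⟨h3, h4, -⟩ := hnx1 t ht
    rw [Finset.mem_range]
    have h5 := hT _ h3
    have h6 : nx t - t < 2 ^ K := by omega
    exact Nat.log_lt_of_lt_pow (by omega) h6) hT'ne
  refine ⟨i, T'.filter (fun t => Nat.log 2 (nx t - t) = i), nx, hn, ?_, ?_⟩
  · rw [Finset.card_range] at hc
    omega
  · intro t ht
    rw [Finset.mem_filter] at ht
    obtain ⟨ht1, ht2⟩ := ht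
    obtain ⟨h3, h4, h5⟩ := hnx1 t ht1
    have h6 : 2 ^ i ≤ nx t - t := by
      rw [← ht2]
      exact Nat.pow_log_le_self 2 (by omega)
    have h7 : nx t - t < 2 ^ (i + 1) := by
      rw [← ht2]
      exact Nat.lt_pow_succ_log_self (by norm_num) _
    refine ⟨(Finset.mem_erase.1 ht1).2, h3, by omega, by omega, h5⟩

/-- The state: a word `w` of length `L` with many occurrences below `X`, any two of which are at
distance at least `n`, where `L ≤ c n`, and such that a cube is attached to every occurrence. -/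
def St (A : Set ℕ) (X c j N : ℕ) : Prop :=
  ∃ (n L : ℕ) (w : Finset ℕ), 1 ≤ n ∧ L ≤ c * n ∧
    N ≤ ((range X).filter (fun s => fac A L s = w)).card ∧
    (∀ s s', fac A L s = w → fac A L s' = w → s < s' → s + n ≤ s') ∧
    ∃ (x : ℕ) (l : List ℕ), l.length = j ∧ (∀ d ∈ l, 1 ≤ d) ∧
      ∀ s, fac A L s = w → s + x ∈ cubeSet A l

theorem step {A : Set ℕ} {X K c j N : ℕ} (hX : X ≤ 2 ^ K) (hN : 2 ≤ N) (h : St A X c j N) :
    ∃ n b L' N' : ℕ, 1 ≤ n ∧ N - 1 ≤ K * (b + 1) ∧ b * n ≤ X ∧ 1 ≤ L' ∧
      L' ≤ (3 + 2 * c) * n ∧ n * b ≤ cplx A L' * N' ∧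
      (1 ≤ b → St A X (3 + 2 * c) (j + 1) N') := by
  obtain ⟨n0, L, w, hn0, hL, hcard, hsep, x, l, hl, hpos, hcube⟩ := h
  set T := (range X).filter (fun s => fac A L s = w) with hT
  have hTX : ∀ t ∈ T, t < X := by
    intro t ht
    rw [hT, Finset.mem_filter, Finset.mem_range] at ht
    exact ht.1
  obtain ⟨i, B, nx, hBne, hBcard, hB⟩ := gaps T X K hTX hX (le_trans hN hcard)
  set n := 2 ^ i with hn
  have hn1 : 1 ≤ n := Nat.one_le_two_pow
  have hpow : 2 ^ (i + 1) = 2 * n := by rw [pow_succ, hn]; ring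
  -- two elements of `B` are at distance at least `n`
  have hBsep : ∀ t ∈ B, ∀ t' ∈ B, t < t' → t + n ≤ t' := by
    intro t ht t' ht' htt
    obtain ⟨h1, h2, h3, h4, h5⟩ := hB t ht
    have h6 := (hB t' ht').1
    by_contra hcon
    exact h5 t' htt (by omega) h6
  set B' := B.erase (B.min' hBne) with hB'
  have hB'card : B'.card + 1 = B.card := by
    rw [hB', Finset.card_erase_of_mem (B.min'_mem hBne)]
    have := Finset.card_pos.2 hBne
    omega
  have hB'n : ∀ t ∈ B', n ≤ t := by
    intro t ht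
    rw [hB', Finset.mem_erase] at ht
    have h1 := B.min'_le t ht.2
    have h2 := hBsep _ (B.min'_mem hBne) t ht.2 (lt_of_le_of_ne h1 (Ne.symm ht.1))
    omega
  have hB'B : ∀ t ∈ B', t ∈ B := fun t ht => (Finset.mem_erase.1 ht).2
  -- the windows
  set V := (B' ×ˢ range n).image (fun p => p.1 - p.2) with hV
  have hinj : Set.InjOn (fun p : ℕ × ℕ => p.1 - p.2) (B' ×ˢ range n : Finset (ℕ × ℕ)) := by
    rintro ⟨t, k⟩ hp ⟨t', k'⟩ hp' heq
    rw [Finset.mem_coe, Finset.mem_product, Finset.mem_range] at hp hp'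
    simp only at heq hp hp'
    have h1 := hB'n t hp.1
    have h2 := hB'n t' hp'.1
    rcases lt_trichotomy t t' with h3 | h3 | h3
    · have := hBsep t (hB'B t hp.1) t' (hB'B t' hp'.1) h3
      omega
    · subst h3
      have : k = k' := by omega
      rw [this]
    · have := hBsep t' (hB'B t' hp'.1) t (hB'B t hp.1) h3
      omega
  have hVcard : V.card = B'.card * n := by
    rw [hV, Finset.card_image_of_injOn hinj, Finset.card_product, Finset.card_range]
  have hVX : V ⊆ range X := by
    intro s hs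
    rw [hV, Finset.mem_image] at hs
    obtain ⟨⟨t, k⟩, hp, rfl⟩ := hs
    rw [Finset.mem_product] at hp
    simp only at hp ⊢
    have := hTX t (hB t (hB'B t hp.1)).1
    rw [Finset.mem_range]
    omega
  set L' := 3 * n + L with hL'
  by_cases hb : 1 ≤ B'.card
  swap
  · have hb0 : B'.card = 0 := by omega
    refine ⟨n, 0, 1, 0, hn1, ?_, by omega, le_refl _, ?_, by omega, by omega⟩
    · have : B.card = 1 := by omega
      rw [this] at hBcard
      omega
    · have : 1 ≤ (3 + 2 * c) * n := by nlinarith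
      omega
  have hVne : V.Nonempty := by
    rw [← Finset.card_pos, hVcard]
    exact Nat.mul_pos hb (by omega)
  obtain ⟨w', hw', hcw, hwne⟩ := exists_fiber V
    ((range L').powerset.filter (fun w => ∃ s, fac A L' s = w)) (fun s => fac A L' s) (by
      intro s _
      rw [Finset.mem_filter, Finset.mem_powerset]
      refine ⟨?_, s, rfl⟩
      intro i hi
      rw [mem_fac] at hi
      rw [Finset.mem_range]
      exact hi.1) hVne
  refine ⟨n, B'.card, L', (V.filter (fun s => fac A L' s = w')).card, hn1, ?_, ?_, ?_, ?_, ?_, ?_⟩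
  · rw [hB'card]
    omega
  · rw [← hVcard]
    calc V.card ≤ (range X).card := Finset.card_le_card hVX
      _ = X := Finset.card_range X
  · omega
  · -- `n0 ≤ 2 n`
    obtain ⟨t, ht⟩ := hBne
    obtain ⟨h1, h2, h3, h4, h5⟩ := hB t ht
    have h6 : fac A L t = w := (Finset.mem_filter.1 h1).2
    have h7 : fac A L (nx t) = w := (Finset.mem_filter.1 h2).2
    have h8 := hsep t (nx t) h6 h7 (by omega)
    have h9 : n0 ≤ 2 * n := by omega
    have h10 : L ≤ c * (2 * n) := le_trans hL (Nat.mul_le_mul_left c h9)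
    rw [hL']
    nlinarith
  · rw [mul_comm n, ← hVcard]
    exact hcw
  · intro _
    obtain ⟨s0, hs0⟩ := hwne
    rw [Finset.mem_filter, hV, Finset.mem_image] at hs0
    obtain ⟨⟨⟨t, k⟩, hp, hs0'⟩, hs0w⟩ := hs0
    rw [Finset.mem_product, Finset.mem_range] at hp
    simp only at hp hs0'
    obtain ⟨h1, h2, h3, h4, h5⟩ := hB t (hB'B t hp.1)
    have htn := hB'n t hp.1
    set g := nx t - t with hg
    have hgn : n ≤ g := by omega
    have hg2 : g < 2 * n := by omega
    have hst : s0 + k = t := by omega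
    have hfac : ∀ s, fac A L' s = w' → ∀ y, y + L ≤ L' → fac A L (s + y) = fac A L (s0 + y) := by
      intro s hs y hy
      exact fac_sub (by rw [hs, hs0w]) hy
    have hocc1 : ∀ s, fac A L' s = w' → fac A L (s + k) = w := by
      intro s hs
      rw [hfac s hs k (by omega), hst]
      exact (Finset.mem_filter.1 h1).2
    have hocc2 : ∀ s, fac A L' s = w' → fac A L (s + k + g) = w := by
      intro s hs
      rw [add_assoc, hfac s hs (k + g) (by omega), ← add_assoc, hst, hg,
        Nat.add_sub_cancel' (by omega)]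
      exact (Finset.mem_filter.1 h2).2
    have hocc3 : ∀ s, fac A L' s = w' → ∀ y, 0 < y → y < g → fac A L (s + k + y) ≠ w := by
      intro s hs y hy1 hy2 hcon
      rw [add_assoc, hfac s hs (k + y) (by omega), ← add_assoc, hst] at hcon
      refine h5 (t + y) (by omega) (by omega) ?_
      rw [hT, Finset.mem_filter, Finset.mem_range]
      have := hTX _ h2
      exact ⟨by omega, hcon⟩
    refine ⟨n, L', w', hn1, ?_, ?_, ?_, x + k, g :: l, by simp [hl], ?_, ?_⟩
    · obtain ⟨t, ht⟩ := hBne
      obtain ⟨h1, h2, h3, h4, h5⟩ := hB t ht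
      have h6 : fac A L t = w := (Finset.mem_filter.1 h1).2
      have h7 : fac A L (nx t) = w := (Finset.mem_filter.1 h2).2
      have h8 := hsep t (nx t) h6 h7 (by omega)
      have h9 : n0 ≤ 2 * n := by omega
      have h10 : L ≤ c * (2 * n) := le_trans hL (Nat.mul_le_mul_left c h9)
      rw [hL']
      nlinarith
    · apply Finset.card_le_card
      intro s hs
      rw [Finset.mem_filter] at hs ⊢
      exact ⟨hVX hs.1, hs.2⟩
    · intro s s' hs hs' hss
      by_contra hcon
      have hy : s' + k = s + k + (s' - s) := by omega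
      have := hocc1 s' hs'
      rw [hy] at this
      exact hocc3 s hs (s' - s) (by omega) (by omega) this
    · intro d hd
      rw [List.mem_cons] at hd
      rcases hd with rfl | hd
      · omega
      · exact hpos d hd
    · intro s hs
      show s + (x + k) ∈ cubeSet A l ∧ s + (x + k) + g ∈ cubeSet A l
      constructor
      · have := hcube _ (hocc1 s hs)
        rwa [show s + k + x = s + (x + k) by ring] at this
      · have := hcube _ (hocc2 s hs)
        rwa [show s + k + g + x = s + (x + k) + g by ring] at this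

end Pool.Agent.W227.FC
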